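import Pool.Agent.D0H38.TD.Stm5

/-!
Module BIN: three bins.
-/

set_option autoImplicit false

namespace Pool.Agent.D0H9.TE

open Pool.Agent.D0H38.TD

theorem bin_core (V : Type) [DecidableEq V] (U : Finset V) (w : V → ℕ) (M : ℕ)
    (hw : ∀ u ∈ U, w u ≤ M) (hM : ∑ u ∈ U, w u ≤ 2 * M) :
    ∃ bin : V → Fin 3, ∀ b, ∑ u ∈ U.filter (fun u => bin u = b), w u ≤ M := by
  have hne : (U.powerset.filter fun S => ∑ u ∈ S, w u ≤ M).Nonempty :=
    ⟨∅, by simp⟩
  obtain ⟨S, hS, hmax⟩ := Finset.exists_max_image _ Finset.card hne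
  rw [Finset.mem_filter, Finset.mem_powerset] at hS
  obtain ⟨hSU, hSM⟩ := hS
  by_cases hall : ∀ x ∈ U, x ∈ S
  · refine ⟨fun _ => 0, fun b => ?_⟩
    have hUS : U = S := Finset.Subset.antisymm hall hSU
    calc ∑ u ∈ U.filter (fun _ => (0 : Fin 3) = b), w u ≤ ∑ u ∈ U, w u :=
          Finset.sum_le_sum_of_subset (Finset.filter_subset _ _)
      _ ≤ M := by rw [hUS]; exact hSM
  · push Not at hall
    obtain ⟨x, hxU, hxS⟩ := hall
    have hbig : M < w x + ∑ u ∈ S, w u := by
      by_contra hcon
      push Not at hcon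
      have h1 : insert x S ∈ U.powerset.filter fun S => ∑ u ∈ S, w u ≤ M := by
        rw [Finset.mem_filter, Finset.mem_powerset]
        refine ⟨Finset.insert_subset hxU hSU, ?_⟩
        rw [Finset.sum_insert hxS]
        exact hcon
      have h2 := hmax _ h1
      rw [Finset.card_insert_of_notMem hxS] at h2
      omega
    refine ⟨fun u => if u ∈ S then 0 else if u = x then 1 else 2, fun b => ?_⟩
    have hsplit : ∑ u ∈ U, w u = ∑ u ∈ S, w u + (w x + ∑ u ∈ (U \ S).erase x, w u) := by
      rw [Finset.add_sum_erase _ _ (Finset.mem_sdiff.2 ⟨hxU, hxS⟩), add_comm,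
        Finset.sum_sdiff hSU]
    fin_cases b
    · refine le_trans (Finset.sum_le_sum_of_subset ?_) hSM
      intro u hu
      rw [Finset.mem_filter] at hu
      by_contra h3
      have h4 : (if u ∈ S then (0 : Fin 3) else if u = x then 1 else 2) = 0 := hu.2
      rw [if_neg h3] at h4
      split_ifs at h4 <;> exact absurd h4 (by decide)
    · refine le_trans (Finset.sum_le_sum_of_subset (t := {x}) ?_) (by
        rw [Finset.sum_singleton]; exact hw x hxU)
      intro u hu
      rw [Finset.mem_filter] at hu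
      have h4 : (if u ∈ S then (0 : Fin 3) else if u = x then 1 else 2) = 1 := hu.2
      rw [Finset.mem_singleton]
      split_ifs at h4 with h5 h6
      · exact absurd h4 (by decide)
      · exact h6
      · exact absurd h4 (by decide)
    · have h7 : ∑ u ∈ (U \ S).erase x, w u ≤ M := by omega
      refine le_trans (Finset.sum_le_sum_of_subset ?_) h7
      intro u hu
      rw [Finset.mem_filter] at hu
      have h4 : (if u ∈ S then (0 : Fin 3) else if u = x then 1 else 2) = 2 := hu.2
      split_ifs at h4 with h5 h6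
      · exact absurd h4 (by decide)
      · exact absurd h4 (by decide)
      · exact Finset.mem_erase.2 ⟨h6, Finset.mem_sdiff.2 ⟨hu.1, h5⟩⟩

/-- Module BIN. -/
theorem t_BIN : S_BIN := bin_core

end Pool.Agent.D0H9.TE
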